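import Pool.Agent.Helper97.CS.Poly

/-!
# MP_fe7296_gt, crossing steps: the theorem
-/

set_option autoImplicit false
open Set Filter Topology Complex

namespace Pool.Agent.Helper97.CS

/-- the point `(1 - s) z + s f z` of the step of `z` -/
noncomputable def pt (f : ℂ → ℂ) (z : ℂ) (s : ℝ) : ℂ := z + (s : ℂ) * (f z - z)

theorem pt_mem {f : ℂ → ℂ} {z y : ℂ} : y ∈ segment ℝ z (f z) ↔ ∃ s ∈ Icc (0 : ℝ) 1, pt f z s = y := by
  rw [segment_eq_image']
  constructor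
  · rintro ⟨s, hs, rfl⟩
    exact ⟨s, hs, by simp only [pt, real_smul]⟩
  · rintro ⟨s, hs, rfl⟩
    exact ⟨s, hs, by simp only [pt, real_smul]⟩

/-- compactness: steps which nearly meet -/
theorem near {X : Set ℂ} (hX : IsCompact X) (hne : X.Nonempty) {f : ℂ → ℂ}
    (cf : ContinuousOn f X) {Θ : ℂ → ℝ} (cΘ : ContinuousOn Θ X)
    (H : ∀ z ∈ X, ∀ w ∈ X, (segment ℝ z (f z) ∩ segment ℝ w (f w)).Nonempty →
      |Θ z - Θ w| < Real.pi) :
    ∃ μ : ℝ, 0 < μ ∧ ∀ z ∈ X, ∀ w ∈ X, ∀ s ∈ Icc (0 : ℝ) 1, ∀ t ∈ Icc (0 : ℝ) 1,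
      dist (pt f z s) (pt f w t) < μ → |Θ z - Θ w| ≤ Real.pi - μ := by
  set C : Set ((ℂ × ℂ) × (ℝ × ℝ)) := (X ×ˢ X) ×ˢ (Icc (0 : ℝ) 1 ×ˢ Icc (0 : ℝ) 1) with hC
  have hCc : IsCompact C := (hX.prod hX).prod (isCompact_Icc.prod isCompact_Icc)
  have hCn : C.Nonempty := by
    obtain ⟨a, ha⟩ := hne
    exact ⟨((a, a), (0, 0)), ⟨ha, ha⟩, by norm_num, by norm_num⟩
  have m1 : MapsTo (fun x : (ℂ × ℂ) × (ℝ × ℝ) => x.1.1) C X := fun x hx => hx.1.1
  have m2 : MapsTo (fun x : (ℂ × ℂ) × (ℝ × ℝ) => x.1.2) C X := fun x hx => hx.1.2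
  have c1 : ContinuousOn (fun x : (ℂ × ℂ) × (ℝ × ℝ) => x.1.1) C := by fun_prop
  have c2 : ContinuousOn (fun x : (ℂ × ℂ) × (ℝ × ℝ) => x.1.2) C := by fun_prop
  have f1 : ContinuousOn (fun x : (ℂ × ℂ) × (ℝ × ℝ) => f x.1.1) C := cf.comp c1 m1
  have f2 : ContinuousOn (fun x : (ℂ × ℂ) × (ℝ × ℝ) => f x.1.2) C := cf.comp c2 m2
  have t1 : ContinuousOn (fun x : (ℂ × ℂ) × (ℝ × ℝ) => Θ x.1.1) C := cΘ.comp c1 m1
  have t2 : ContinuousOn (fun x : (ℂ × ℂ) × (ℝ × ℝ) => Θ x.1.2) C := cΘ.comp c2 m2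
  have s1 : ContinuousOn (fun x : (ℂ × ℂ) × (ℝ × ℝ) => (x.2.1 : ℂ)) C := by fun_prop
  have s2 : ContinuousOn (fun x : (ℂ × ℂ) × (ℝ × ℝ) => (x.2.2 : ℂ)) C := by fun_prop
  have p1 : ContinuousOn (fun x : (ℂ × ℂ) × (ℝ × ℝ) => pt f x.1.1 x.2.1) C := by
    unfold pt
    exact c1.add (s1.mul (f1.sub c1))
  have p2 : ContinuousOn (fun x : (ℂ × ℂ) × (ℝ × ℝ) => pt f x.1.2 x.2.2) C := by
    unfold pt
    exact c2.add (s2.mul (f2.sub c2))
  have cD : ContinuousOn (fun x : (ℂ × ℂ) × (ℝ × ℝ) => dist (pt f x.1.1 x.2.1) (pt f x.1.2 x.2.2))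
      C := continuous_dist.comp_continuousOn (p1.prodMk p2)
  have cA : ContinuousOn (fun x : (ℂ × ℂ) × (ℝ × ℝ) => Real.pi - |Θ x.1.1 - Θ x.1.2|) C :=
    continuousOn_const.sub (t1.sub t2).abs
  have cM : ContinuousOn (fun x : (ℂ × ℂ) × (ℝ × ℝ) =>
      max (dist (pt f x.1.1 x.2.1) (pt f x.1.2 x.2.2)) (Real.pi - |Θ x.1.1 - Θ x.1.2|)) C :=
    continuous_max.comp_continuousOn (cD.prodMk cA)
  obtain ⟨x, hx, hmin⟩ := hCc.exists_isMinOn hCn cM
  refine ⟨max (dist (pt f x.1.1 x.2.1) (pt f x.1.2 x.2.2)) (Real.pi - |Θ x.1.1 - Θ x.1.2|), ?_, ?_⟩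
  · rcases (dist_nonneg (x := pt f x.1.1 x.2.1) (y := pt f x.1.2 x.2.2)).lt_or_eq with h | h
    · exact lt_max_of_lt_left h
    · apply lt_max_of_lt_right
      have h1 := dist_eq_zero.1 h.symm
      have h2 := H x.1.1 hx.1.1 x.1.2 hx.1.2
        ⟨pt f x.1.1 x.2.1, pt_mem.2 ⟨x.2.1, hx.2.1, rfl⟩, pt_mem.2 ⟨x.2.2, hx.2.2, h1.symm⟩⟩
      linarith
  · intro z hz w hw s hs t ht hlt
    have h1 : max (dist (pt f x.1.1 x.2.1) (pt f x.1.2 x.2.2)) (Real.pi - |Θ x.1.1 - Θ x.1.2|) ≤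
        max (dist (pt f z s) (pt f w t)) (Real.pi - |Θ z - Θ w|) :=
      isMinOn_iff.1 hmin ((z, w), (s, t)) ⟨⟨hz, hw⟩, hs, ht⟩
    rcases le_max_iff.1 h1 with h2 | h2
    · exact absurd hlt (not_lt.2 h2)
    · linarith

/-- the argument of a small perturbation of a positive number -/
theorem arg_small {μ r0 : ℝ} (hμ : 0 < μ) (hr0 : 0 < r0) :
    ∃ η : ℝ, 0 < η ∧ η < r0 ∧ η < μ ∧ ∀ (r : ℝ) (ζ : ℂ), r0 ≤ r → ‖ζ‖ < η →
      |arg ((r : ℂ) + ζ)| < μ := by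
  have h1 : ContinuousAt arg 1 := continuousAt_arg (by simp)
  rw [Metric.continuousAt_iff] at h1
  obtain ⟨δ, hδ, h2⟩ := h1 μ hμ
  refine ⟨min (min (r0 / 2) (μ / 2)) (δ * r0), by positivity, ?_, ?_, ?_⟩
  · have := min_le_left (min (r0 / 2) (μ / 2)) (δ * r0)
    have := min_le_left (r0 / 2) (μ / 2)
    linarith
  · have := min_le_left (min (r0 / 2) (μ / 2)) (δ * r0)
    have := min_le_right (r0 / 2) (μ / 2)
    linarith
  · intro r ζ hr hζ
    have hrp : 0 < r := lt_of_lt_of_le hr0 hr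
    have hr0' : (r : ℂ) ≠ 0 := by exact_mod_cast hrp.ne'
    have e : (r : ℂ) + ζ = (r : ℂ) * (1 + ζ / r) := by field_simp
    rw [e, arg_real_mul _ hrp]
    have h3 : dist (1 + ζ / r) 1 < δ := by
      rw [dist_eq_norm, add_sub_cancel_left, norm_div, norm_real, Real.norm_eq_abs,
        abs_of_pos hrp, div_lt_iff₀ hrp]
      have h4 := min_le_right (min (r0 / 2) (μ / 2)) (δ * r0)
      have h5 : δ * r0 ≤ δ * r := mul_le_mul_of_nonneg_left hr hδ.le
      linarith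
    have h6 := h2 h3
    rw [dist_eq_norm, arg_one, sub_zero, Real.norm_eq_abs] at h6
    exact h6

/-- **Crossing steps**: for every choice of continuous angles. -/
theorem crossing {X : Set ℂ} (hX : IsCompact X) (hne : X.Nonempty) {f : ℂ → ℂ}
    (cf : ContinuousOn f X) (hfX : MapsTo f X X) (h0 : ∀ z ∈ X, f z ≠ z) {Θ : ℂ → ℝ}
    (cΘ : ContinuousOn Θ X)
    (eΘ : ∀ z ∈ X, f z - z = ‖f z - z‖ * exp (Θ z * I)) :
    ∃ z ∈ X, ∃ w ∈ X, (segment ℝ z (f z) ∩ segment ℝ w (f w)).Nonempty ∧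
      Real.pi ≤ |Θ z - Θ w| := by
  by_contra hcon
  push Not at hcon
  obtain ⟨μ, hμ, hnear⟩ := near hX hne cf cΘ hcon
  have cn : ContinuousOn (fun z => ‖f z - z‖) X := (cf.sub continuousOn_id).norm
  obtain ⟨a, ha, hmin⟩ := hX.exists_isMinOn hne cn
  have hr0 : 0 < ‖f a - a‖ := norm_pos_iff.2 (sub_ne_zero.2 (h0 a ha))
  obtain ⟨η, hη, hηr, hημ, harg⟩ := arg_small hμ hr0
  -- near return
  have hmem : ∀ n : ℕ, f^[n] a ∈ X := fun n => (hfX.iterate n) ha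
  obtain ⟨b, _, φ, hφ, hlim⟩ := hX.tendsto_subseq hmem
  obtain ⟨N, hN⟩ := Metric.cauchySeq_iff'.1 hlim.cauchySeq η hη
  have hd := hN (N + 1) (by omega)
  have hlt : φ N < φ (N + 1) := hφ (Nat.lt_succ_self N)
  obtain ⟨d, hdd⟩ : ∃ d, φ (N + 1) = φ N + d := ⟨φ (N + 1) - φ N, by omega⟩
  have hd0 : 0 < d := by omega
  set m := φ N with hm
  have hdist : ‖f^[m] a - f^[m + d] a‖ < η := by
    have : dist (f^[φ (N + 1)] a) (f^[m] a) < η := hd
    rw [hdd, dist_comm, dist_eq_norm] at this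
    exact this
  set x : ℕ → ℂ := fun k => f^[m + k] a with hx
  have hxX : ∀ k, x k ∈ X := fun k => hmem (m + k)
  have hxs : ∀ k, f (x k) = x (k + 1) := by
    intro k
    show f (f^[m + k] a) = f^[m + (k + 1)] a
    rw [← Function.iterate_succ_apply' f, Nat.add_succ]
  have hx0 : ‖x 0 - x d‖ < η := by
    simpa only [hx, Nat.add_zero] using hdist
  have hr : ∀ k, ‖f a - a‖ ≤ ‖x (k + 1) - x k‖ := by
    intro k
    have := hmin (hxX k)
    rw [← hxs k]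
    exact this
  -- the closing edge
  have hv0 : x 1 - x 0 = ‖x 1 - x 0‖ * exp (Θ (x 0) * I) := by
    have := eΘ (x 0) (hxX 0)
    rw [hxs 0] at this
    exact this
  set e : ℂ := x 1 - x d with he
  have he1 : e * exp (-(Θ (x 0) * I)) = (‖x 1 - x 0‖ : ℂ) + (x 0 - x d) * exp (-(Θ (x 0) * I)) := by
    have h1 : e = (x 1 - x 0) + (x 0 - x d) := by rw [he]; ring
    have h2 : (x 1 - x 0) * exp (-(Θ (x 0) * I)) = ‖x 1 - x 0‖ := by
      conv_lhs => rw [hv0]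
      rw [mul_assoc, ← exp_add, add_neg_cancel, exp_zero, mul_one]
    rw [h1, add_mul, h2]
  have hnexp : ‖exp (-(Θ (x 0) * I))‖ = 1 := by
    rw [← neg_mul, ← ofReal_neg, norm_exp_ofReal_mul_I]
  set α : ℝ := arg (e * exp (-(Θ (x 0) * I))) with hα
  have hαμ : |α| < μ := by
    rw [hα, he1]
    refine harg _ _ (hr 0) ?_
    rw [norm_mul, hnexp, mul_one]
    exact hx0
  have he0 : e ≠ 0 := by
    intro h
    rw [h, zero_mul] at he1
    have h1 : (‖x 1 - x 0‖ : ℂ) = -((x 0 - x d) * exp (-(Θ (x 0) * I))) := by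
      linear_combination -he1
    have h2 := congrArg norm h1
    rw [norm_neg, norm_mul, hnexp, mul_one, norm_real, norm_norm] at h2
    have := hr 0
    linarith
  have hedir : e = ‖e‖ * exp (((Θ (x 0) + α : ℝ) : ℂ) * I) := by
    have h1 : e * exp (-(Θ (x 0) * I)) = ‖e‖ * exp (α * I) := by
      conv_lhs => rw [← norm_mul_exp_arg_mul_I (e * exp (-(Θ (x 0) * I)))]
      rw [norm_mul, hnexp, mul_one]
    calc e = e * exp (-(Θ (x 0) * I)) * exp (Θ (x 0) * I) := by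
          rw [mul_assoc, ← exp_add, neg_add_cancel, exp_zero, mul_one]
      _ = ‖e‖ * (exp (α * I) * exp (Θ (x 0) * I)) := by rw [h1]; ring
      _ = _ := by
          rw [← exp_add]
          push_cast
          ring_nf
  -- the polygon
  set q : ℕ → ℂ := fun k => if k < d then x (k + 1) else x 1 with hq
  set p : ℕ → ℝ := fun k => if k + 1 < d then Θ (x (k + 1)) else Θ (x 0) + α with hp
  have q1 : ∀ k, k < d → q k = x (k + 1) := fun k hk => by simp only [hq]; rw [if_pos hk]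
  have q2 : q d = x 1 := by simp only [hq]; rw [if_neg (lt_irrefl d)]
  have p1 : ∀ k, k + 1 < d → p k = Θ (x (k + 1)) := fun k hk => by simp only [hp]; rw [if_pos hk]
  have p2 : ∀ k, k + 1 = d → p k = Θ (x 0) + α := fun k hk => by
    simp only [hp]; rw [if_neg (by omega)]
  have hlast : ∀ k, k + 1 = d → q k = x d ∧ q (k + 1) = x 1 := by
    intro k hk
    constructor
    · rw [q1 k (by omega), hk]
    · rw [hk, q2]
  -- an edge which meets the closing edge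
  have hclose : ∀ k, k + 1 < d → ∀ j, j + 1 = d →
      (segment ℝ (q k) (q (k + 1)) ∩ segment ℝ (q j) (q (j + 1))).Nonempty →
      |p k - p j| < Real.pi := by
    intro k hk j hj hmeet
    obtain ⟨y, hy1, hy2⟩ := hmeet
    rw [q1 k (by omega), q1 (k + 1) hk, ← hxs (k + 1)] at hy1
    rw [(hlast j hj).1, (hlast j hj).2, segment_eq_image'] at hy2
    obtain ⟨s, hs, hsy⟩ := pt_mem.1 hy1
    obtain ⟨t, ht, hty⟩ := hy2
    have h1 : dist (pt f (x (k + 1)) s) (pt f (x 0) t) < μ := by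
      rw [hsy, ← hty]
      simp only [pt, real_smul]
      rw [hxs 0, dist_eq_norm]
      have h2 : x d + (t : ℂ) * (x 1 - x d) - (x 0 + (t : ℂ) * (x 1 - x 0)) =
          ((1 - t : ℝ) : ℂ) * (-(x 0 - x d)) := by push_cast; ring
      rw [h2, norm_mul, norm_neg, norm_real, Real.norm_eq_abs, abs_of_nonneg (by linarith [ht.2])]
      have h3 : (1 - t) * ‖x 0 - x d‖ ≤ 1 * ‖x 0 - x d‖ :=
        mul_le_mul_of_nonneg_right (by linarith [ht.1]) (norm_nonneg _)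
      linarith
    have h2 := hnear _ (hxX (k + 1)) _ (hxX 0) s hs t ht h1
    rw [p1 k hk, p2 j hj]
    have h3 : Θ (x (k + 1)) - (Θ (x 0) + α) = (Θ (x (k + 1)) - Θ (x 0)) - α := by ring
    rw [h3]
    have h4 := abs_sub (Θ (x (k + 1)) - Θ (x 0)) α
    linarith
  have hd1 : d ≠ 1 := by
    intro h
    have h1 := hx0
    rw [h] at h1
    have h2 : ‖f a - a‖ ≤ ‖x 1 - x 0‖ := hr 0
    have h3 : ‖x 0 - x 1‖ = ‖x 1 - x 0‖ := norm_sub_rev _ _
    linarith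
  refine not_bad d q p ⟨hd0, ?_, ?_, ?_, ?_⟩
  · rw [q2, q1 0 hd0]
  · intro k hk
    rcases Nat.lt_or_ge (k + 1) d with h | h
    · rw [q1 k hk, q1 (k + 1) h, ← hxs (k + 1)]
      exact sub_ne_zero.2 (h0 _ (hxX _))
    · obtain ⟨h1, h2⟩ := hlast k (by omega)
      rw [h1, h2]
      exact he0
  · intro k hk
    rcases Nat.lt_or_ge (k + 1) d with h | h
    · rw [q1 k hk, q1 (k + 1) h, p1 k h, ← hxs (k + 1)]
      exact eΘ _ (hxX _)
    · obtain ⟨h1, h2⟩ := hlast k (by omega)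
      rw [h1, h2, p2 k (by omega)]
      exact hedir
  · intro i hi j hj hmeet
    rcases Nat.lt_or_ge (i + 1) d with h | h
    · rcases Nat.lt_or_ge (j + 1) d with h' | h'
      · rw [p1 i h, p1 j h']
        rw [q1 i hi, q1 (i + 1) h, q1 j hj, q1 (j + 1) h', ← hxs (i + 1), ← hxs (j + 1)] at hmeet
        exact hcon _ (hxX _) _ (hxX _) hmeet
      · exact hclose i h j (by omega) hmeet
    · rcases Nat.lt_or_ge (j + 1) d with h' | h'
      · rw [abs_sub_comm]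
        rw [inter_comm] at hmeet
        exact hclose j h' i (by omega) hmeet
      · rw [p2 i (by omega), p2 j (by omega), sub_self, abs_zero]
        exact Real.pi_pos

end Pool.Agent.Helper97.CS
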