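import Pool.Agent.Helper97.CS.Path

/-!
# MP_fe7296_gt, crossing steps: Hopf's secant argument for broken lines
-/

set_option autoImplicit false
open Set Filter Topology Complex

namespace Pool.Agent.Helper97.CS

theorem arg_mod {z : ℂ} {r θ : ℝ} (hr : 0 < r) (h : z = r * exp (θ * I)) :
    ∃ k : ℤ, arg z = θ + k * (2 * Real.pi) := by
  have hz : z ≠ 0 := by
    rw [h]
    exact mul_ne_zero (by exact_mod_cast hr.ne') (exp_ne_zero _)
  have hn : ‖z‖ = r := by
    rw [h, norm_mul, norm_exp_ofReal_mul_I, mul_one, norm_real, Real.norm_eq_abs, abs_of_pos hr]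
  have h1 : (‖z‖ : ℂ) * exp (arg z * I) = r * exp (θ * I) := by
    rw [norm_mul_exp_arg_mul_I, h]
  rw [hn] at h1
  have h2 := mul_left_cancel₀ (by exact_mod_cast hr.ne' : (r : ℂ) ≠ 0) h1
  rw [exp_eq_exp_iff_exists_int] at h2
  obtain ⟨n, hn2⟩ := h2
  refine ⟨n, ?_⟩
  have h3 := congrArg Complex.im hn2
  simp only [add_im, mul_im, ofReal_re, ofReal_im, I_re, I_im, mul_re,
    intCast_re, intCast_im, re_ofNat, im_ofNat] at h3
  linarith

theorem exp_half_pi : exp (-((Real.pi / 2 : ℝ) * I)) = -I := by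
  rw [← neg_mul, ← ofReal_neg, exp_mul_I, ← ofReal_cos, ← ofReal_sin, Real.cos_neg, Real.sin_neg,
    Real.cos_pi_div_two, Real.sin_pi_div_two]
  push_cast
  ring

theorem exp_neg_half_pi : exp (-((-(Real.pi / 2) : ℝ) * I)) = I := by
  rw [← neg_mul, ← ofReal_neg, neg_neg, exp_mul_I, ← ofReal_cos, ← ofReal_sin,
    Real.cos_pi_div_two, Real.sin_pi_div_two]
  push_cast
  ring

/-- the change of the angle along the diagonal -/
theorem diag_step {n : ℕ} {q : ℕ → ℂ} {p : ℕ → ℝ}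
    (hne : ∀ i < n, q (i + 1) - q i ≠ 0)
    (hdir : ∀ i < n, q (i + 1) - q i = ‖q (i + 1) - q i‖ * exp (p i * I))
    (hadj : ∀ i, i + 1 < n → |p i - p (i + 1)| < Real.pi)
    {g : ℝ → ℂ} {T : ℝ} (hT : T = n - 1 / 4) (hg : ContinuousOn g (Icc 0 T))
    (he : ∀ s ∈ Icc 0 T, exp (g s) = path n q (s + 1 / 4) - path n q s)
    {i : ℕ} (hi : i + 1 < n) : (g (i + 1 : ℕ)).im - (g i).im = p (i + 1) - p i := by
  have hin : (i : ℝ) + 1 ≤ n - 1 := by
    have : (i : ℝ) + 1 + 1 ≤ n := by exact_mod_cast hi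
    linarith
  have hi0 : (0 : ℝ) ≤ i := Nat.cast_nonneg i
  have hsub : Icc (i : ℝ) ((i + 1 : ℕ) : ℝ) ⊆ Icc 0 T := by
    intro s hs
    rw [mem_Icc] at hs ⊢
    push_cast at hs
    constructor
    · linarith
    · rw [hT]; linarith
  have hi1 : i < n := by omega
  -- the secant
  have hsec : ∀ s ∈ Icc (i : ℝ) ((i + 1 : ℕ) : ℝ), path n q (s + 1 / 4) - path n q s =
      ((min (1 / 4) (i + 1 - s) : ℝ) : ℂ) * (q (i + 1) - q i) +
        ((max 0 (s + 1 / 4 - i - 1) : ℝ) : ℂ) * (q (i + 1 + 1) - q (i + 1)) := by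
    intro s hs
    rw [mem_Icc] at hs
    push_cast at hs
    rcases le_total (s + 1 / 4) (i + 1) with h | h
    · rw [min_eq_left (by linarith), max_eq_left (by linarith),
        path_eq hi1 (by linarith) h, path_eq hi1 hs.1 hs.2]
      push_cast
      ring
    · have h2 : ((i + 1 : ℕ) : ℝ) = (i : ℝ) + 1 := by push_cast; ring
      rw [min_eq_right (by linarith), max_eq_right (by linarith),
        path_eq (i := i + 1) hi (by rw [h2]; linarith) (by rw [h2]; linarith),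
        path_eq hi1 hs.1 hs.2]
      push_cast
      ring
  have hle : (i : ℝ) ≤ ((i + 1 : ℕ) : ℝ) := by push_cast; linarith
  have h1 := lift_arg (c := p i) (h := fun s => path n q (s + 1 / 4) - path n q s) hle
    (hg.mono hsub)
    (((continuous_path n q).comp (continuous_id.add continuous_const)).sub
      (continuous_path n q)).continuousOn (fun s hs => he s (hsub hs)) (by
      intro s hs
      show (path n q (s + 1 / 4) - path n q s) * exp (-(p i * I)) ∈ slitPlane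
      rw [hsec s hs]
      rw [mem_Icc] at hs
      push_cast at hs
      refine comb_ne (hdir i hi1) (hdir (i + 1) hi) (hne i hi1) (hne (i + 1) hi) (hadj i hi)
        (le_min (by norm_num) (by linarith)) (le_max_left _ _) ?_
      rcases le_total (s + 1 / 4) (i + 1) with h | h
      · rw [min_eq_left (by linarith), max_eq_left (by linarith)]; norm_num
      · rw [min_eq_right (by linarith), max_eq_right (by linarith)]; linarith)
  rw [h1]
  have e0 := hsec i ⟨le_rfl, hle⟩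
  have e1 := hsec ((i + 1 : ℕ) : ℝ) ⟨hle, le_rfl⟩
  have v0 : 0 < ‖q (i + 1) - q i‖ := norm_pos_iff.2 (hne i hi1)
  have v1 : 0 < ‖q (i + 1 + 1) - q (i + 1)‖ := norm_pos_iff.2 (hne (i + 1) hi)
  have a0 : arg ((path n q ((i : ℝ) + 1 / 4) - path n q i) * exp (-(p i * I))) = 0 := by
    rw [e0, min_eq_left (by linarith), max_eq_left (by linarith)]
    have : (((1 / 4 : ℝ) : ℂ) * (q (i + 1) - q i) + ((0 : ℝ) : ℂ) * (q (i + 1 + 1) - q (i + 1))) *
        exp (-(p i * I)) = ((1 / 4 * ‖q (i + 1) - q i‖ : ℝ) : ℂ) := by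
      have e2 : (q (i + 1) - q i) * exp (-(p i * I)) = ‖q (i + 1) - q i‖ := by
        conv_lhs => rw [hdir i hi1]
        rw [mul_assoc, ← exp_add, add_neg_cancel, exp_zero, mul_one]
      rw [ofReal_zero, zero_mul, add_zero, mul_assoc, e2]
      push_cast
      ring
    rw [this]
    exact arg_ofReal_of_nonneg (by positivity)
  have a1 : arg ((path n q (((i + 1 : ℕ) : ℝ) + 1 / 4) - path n q ((i + 1 : ℕ) : ℝ)) *
      exp (-(p i * I))) = p (i + 1) - p i := by
    rw [e1]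
    push_cast
    rw [min_eq_right (by linarith), max_eq_right (by linarith)]
    have : (((i : ℝ) + 1 - ((i : ℝ) + 1) : ℝ) : ℂ) * (q (i + 1) - q i) +
        (((i : ℝ) + 1 + 1 / 4 - i - 1 : ℝ) : ℂ) * (q (i + 1 + 1) - q (i + 1)) =
        ((1 / 4 : ℝ) : ℂ) * (q (i + 1 + 1) - q (i + 1)) := by
      have h3 : (i : ℝ) + 1 - ((i : ℝ) + 1) = 0 := by ring
      have h4 : (i : ℝ) + 1 + 1 / 4 - i - 1 = 1 / 4 := by ring
      rw [h3, h4, ofReal_zero, zero_mul, zero_add]
    have h5 : (((i : ℝ) + 1 - ((i : ℝ) + 1) : ℝ) : ℂ) * (q (i + 1) - q i) +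
        (((i : ℝ) + 1 + 1 / 4 - i - 1 : ℝ) : ℂ) * (q (i + 1 + 1) - q (i + 1)) =
        ((1 / 4 : ℝ) : ℂ) * (q (i + 1 + 1) - q (i + 1)) := this
    rw [h5]
    have e2 : ((1 / 4 : ℝ) : ℂ) * (q (i + 1 + 1) - q (i + 1)) * exp (-(p i * I)) =
        ((1 / 4 * ‖q (i + 1 + 1) - q (i + 1)‖ : ℝ) : ℂ) *
          exp (((p (i + 1) - p i : ℝ) : ℂ) * I) := by
      conv_lhs => rw [hdir (i + 1) hi]
      rw [mul_assoc, mul_assoc, ← exp_add]
      push_cast
      ring_nf
    rw [e2]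
    exact arg_pos_exp (by positivity) (by rw [abs_sub_comm]; exact hadj i hi)
  show arg ((path n q (((i + 1 : ℕ) : ℝ) + 1 / 4) - path n q ((i + 1 : ℕ) : ℝ)) *
      exp (-(p i * I))) - arg ((path n q ((i : ℝ) + 1 / 4) - path n q i) * exp (-(p i * I))) = _
  rw [a0, a1, sub_zero]

end Pool.Agent.Helper97.CS
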