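import Pool.Agent.Helper97.CS.Hopf

/-!
# MP_fe7296_gt, crossing steps: there is no simple closed broken line with consistent angles
-/

set_option autoImplicit false
open Set Filter Topology Complex

namespace Pool.Agent.Helper97.CS

/-- the last piece of the diagonal -/
theorem diag_last {n : ℕ} (hn : 0 < n) {q : ℕ → ℂ} {p : ℕ → ℝ}
    (hne : ∀ i < n, q (i + 1) - q i ≠ 0)
    (hdir : ∀ i < n, q (i + 1) - q i = ‖q (i + 1) - q i‖ * exp (p i * I))
    {g : ℝ → ℂ} {T : ℝ} (hT : T = n - 1 / 4) (hg : ContinuousOn g (Icc 0 T))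
    (he : ∀ s ∈ Icc 0 T, exp (g s) = path n q (s + 1 / 4) - path n q s) :
    (g T).im - (g (n - 1 : ℕ)).im = 0 := by
  obtain ⟨m, rfl⟩ : ∃ m, n = m + 1 := ⟨n - 1, by omega⟩
  rw [Nat.add_sub_cancel]
  push_cast at hT
  have hm0 : (0 : ℝ) ≤ m := Nat.cast_nonneg m
  have hsub : Icc (m : ℝ) T ⊆ Icc 0 T := by
    intro s hs
    rw [mem_Icc] at hs ⊢
    exact ⟨by linarith, hs.2⟩
  have v0 : 0 < ‖q (m + 1) - q m‖ := norm_pos_iff.2 (hne m (by omega))
  have hsec : ∀ s ∈ Icc (m : ℝ) T,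
      (path (m + 1) q (s + 1 / 4) - path (m + 1) q s) * exp (-(p m * I)) =
        ((1 / 4 * ‖q (m + 1) - q m‖ : ℝ) : ℂ) := by
    intro s hs
    rw [mem_Icc] at hs
    have e2 : (q (m + 1) - q m) * exp (-(p m * I)) = ‖q (m + 1) - q m‖ := by
      conv_lhs => rw [hdir m (by omega)]
      rw [mul_assoc, ← exp_add, add_neg_cancel, exp_zero, mul_one]
    rw [path_eq (i := m) (by omega) (by linarith) (by linarith),
      path_eq (i := m) (by omega) hs.1 (by linarith)]
    have : (q m + ((s + 1 / 4 - m : ℝ) : ℂ) * (q (m + 1) - q m) -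
        (q m + ((s - m : ℝ) : ℂ) * (q (m + 1) - q m))) * exp (-(p m * I)) =
        (1 / 4 : ℂ) * ((q (m + 1) - q m) * exp (-(p m * I))) := by
      push_cast
      ring
    rw [this, e2]
    push_cast
    ring
  have hle : (m : ℝ) ≤ T := by linarith
  have h1 := lift_arg (c := p m) (h := fun s => path (m + 1) q (s + 1 / 4) - path (m + 1) q s) hle
    (hg.mono hsub)
    (((continuous_path (m + 1) q).comp (continuous_id.add continuous_const)).sub
      (continuous_path (m + 1) q)).continuousOn (fun s hs => he s (hsub hs)) (by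
      intro s hs
      show (path (m + 1) q (s + 1 / 4) - path (m + 1) q s) * exp (-(p m * I)) ∈ slitPlane
      rw [hsec s hs]
      exact ofReal_mem_slitPlane.2 (by positivity))
  rw [h1]
  show arg ((path (m + 1) q (T + 1 / 4) - path (m + 1) q T) * exp (-(p m * I))) -
    arg ((path (m + 1) q ((m : ℝ) + 1 / 4) - path (m + 1) q m) * exp (-(p m * I))) = 0
  rw [hsec T ⟨hle, le_rfl⟩, hsec m ⟨le_rfl, hle⟩, sub_self]

theorem slit_up' {w : ℂ} (h0 : w ≠ 0) (h : 0 ≤ w.im) :
    w * exp (-((Real.pi / 2 : ℝ) * I)) ∈ slitPlane := by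
  rw [exp_half_pi]
  have := Pool.Agent.Helper34.Plane.slit_up h0 h
  rwa [mul_comm] at this

theorem slit_dn' {w : ℂ} (h0 : w ≠ 0) (h : w.im ≤ 0) :
    w * exp (-((-(Real.pi / 2) : ℝ) * I)) ∈ slitPlane := by
  rw [exp_neg_half_pi]
  have := Pool.Agent.Helper34.Plane.slit_dn h0 h
  rwa [mul_comm] at this

theorem path_zero {n : ℕ} (hn : 0 < n) (q : ℕ → ℂ) : path n q 0 = q 0 := by
  rw [path_eq (i := 0) hn (by simp) (by norm_num)]
  simp

theorem path_end {n : ℕ} (hn : 0 < n) (q : ℕ → ℂ) : path n q n = q n := by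
  obtain ⟨m, rfl⟩ : ∃ m, n = m + 1 := ⟨n - 1, by omega⟩
  rw [path_eq (i := m) (by omega) (by push_cast; linarith) (by push_cast; linarith)]
  push_cast
  ring

theorem hopf {n : ℕ} (hn : 0 < n) {q : ℕ → ℂ} {p : ℕ → ℝ} (hcl : q n = q 0)
    (hne : ∀ i < n, q (i + 1) - q i ≠ 0)
    (hdir : ∀ i < n, q (i + 1) - q i = ‖q (i + 1) - q i‖ * exp (p i * I))
    (hadj : ∀ i, i + 1 < n → |p i - p (i + 1)| < Real.pi)
    (hadj0 : |p (n - 1) - p 0| < Real.pi)
    (hinj : ∀ s t : ℝ, 0 ≤ s → s < t → t ≤ n → ¬ (s = 0 ∧ t = n) → path n q s ≠ path n q t)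
    (hlow : ∀ s : ℝ, 0 ≤ s → s ≤ n → (q 0).im ≤ (path n q s).im) : False := by
  have hn1 : (1 : ℝ) ≤ n := by exact_mod_cast hn
  set w : ℝ → ℝ := fun b => 1 / 4 + cl b * (n - 1 / 2) with hw
  have cw : Continuous w := continuous_const.add (continuous_cl.mul continuous_const)
  have hw0 : ∀ b, 1 / 4 ≤ w b := by
    intro b
    have := mul_nonneg (cl_nonneg b) (by linarith : (0 : ℝ) ≤ n - 1 / 2)
    simp only [hw]
    linarith
  have hw1 : ∀ b, w b ≤ n - 1 / 4 := by
    intro b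
    have := mul_le_mul_of_nonneg_right (cl_le_one b) (by linarith : (0 : ℝ) ≤ n - 1 / 2)
    simp only [hw]
    linarith
  set σ : ℝ × ℝ → ℝ := fun x => cl x.1 * (n - w x.2) with hσ
  have cσ : Continuous σ :=
    (continuous_cl.comp continuous_fst).mul (continuous_const.sub (cw.comp continuous_snd))
  have hσ0 : ∀ x, 0 ≤ σ x := by
    intro x
    exact mul_nonneg (cl_nonneg _) (by linarith [hw1 x.2])
  have hσ1 : ∀ x, σ x + w x.2 ≤ n := by
    intro x
    have := mul_le_mul_of_nonneg_right (cl_le_one x.1) (by linarith [hw1 x.2] : 0 ≤ n - w x.2)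
    simp only [hσ]
    linarith
  set G : ℝ × ℝ → ℂ := fun x => path n q (σ x + w x.2) - path n q (σ x) with hG
  have cG : Continuous G :=
    ((continuous_path n q).comp (cσ.add (cw.comp continuous_snd))).sub
      ((continuous_path n q).comp cσ)
  have G0 : ∀ x, G x ≠ 0 := by
    intro x
    have h1 := hinj (σ x) (σ x + w x.2) (hσ0 x) (by linarith [hw0 x.2]) (hσ1 x) (by
      rintro ⟨h1, h2⟩
      rw [h1] at h2
      linarith [hw1 x.2])
    exact sub_ne_zero.2 h1.symm
  obtain ⟨g, cg, hg⟩ := exists_log cG G0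
  have w0 : w 0 = 1 / 4 := by simp only [hw]; rw [cl_le le_rfl]; ring
  have w1 : w 1 = n - 1 / 4 := by simp only [hw]; rw [cl_ge le_rfl]; ring
  have cl0 : cl 0 = 0 := cl_le le_rfl
  have cl1 : cl 1 = 1 := cl_ge le_rfl
  -- bottom
  have hB : (g (1, 0)).im - (g (0, 0)).im = p (n - 1) - p 0 := by
    set T : ℝ := n - 1 / 4 with hT
    have hT0 : 0 < T := by rw [hT]; linarith
    set gB : ℝ → ℂ := fun s => g (s / T, 0) with hgB
    have cgB : ContinuousOn gB (Icc 0 T) := by
      apply Continuous.continuousOn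
      exact cg.comp ((continuous_id.div_const T).prodMk continuous_const)
    have hσB : ∀ s ∈ Icc 0 T, σ (s / T, 0) = s := by
      intro s hs
      rw [mem_Icc] at hs
      show cl (s / T) * (n - w 0) = s
      rw [cl_mem (div_nonneg hs.1 hT0.le) ((div_le_one hT0).2 hs.2), w0, ← hT]
      field_simp
    have heB : ∀ s ∈ Icc 0 T, exp (gB s) = path n q (s + 1 / 4) - path n q s := by
      intro s hs
      have h1 := hg (s / T, 0)
      rw [show gB s = g (s / T, 0) from rfl, h1]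
      show path n q (σ (s / T, 0) + w 0) - path n q (σ (s / T, 0)) = _
      rw [hσB s hs, w0]
    have hstep : ∀ i, i < n → (gB i).im - (gB 0).im = p i - p 0 := by
      intro i
      induction i with
      | zero => intro _; simp
      | succ i ih =>
        intro hi
        have h1 := ih (by omega)
        have h2 := diag_step hne hdir hadj hT cgB heB hi
        linarith
    have h1 := hstep (n - 1) (by omega)
    have h2 := diag_last hn hne hdir hT cgB heB
    have h3 : gB T = g (1, 0) := by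
      show g (T / T, 0) = _
      rw [div_self hT0.ne']
    have h4 : gB 0 = g (0, 0) := by
      show g (0 / T, 0) = _
      rw [zero_div]
    rw [h3] at h2
    rw [h4] at h1
    linarith
  have v0 : 0 < ‖q 1 - q 0‖ := norm_pos_iff.2 (hne 0 hn)
  -- the two ends
  have pstart : path n q (1 / 4) = q 0 + (1 / 4 : ℂ) * (q 1 - q 0) := by
    rw [path_eq (i := 0) hn (by norm_num) (by norm_num)]
    push_cast
    ring
  obtain ⟨m, rfl⟩ : ∃ m, n = m + 1 := ⟨n - 1, by omega⟩
  rw [Nat.add_sub_cancel] at hadj0 hB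
  have v1 : 0 < ‖q (m + 1) - q m‖ := norm_pos_iff.2 (hne m (by omega))
  have hpe : ∀ s : ℝ, 0 ≤ s → s ≤ 1 →
      path (m + 1) q (((m + 1 : ℕ) : ℝ) - s) = q 0 - (s : ℂ) * (q (m + 1) - q m) := by
    intro s hs0 hs1
    rw [path_eq (i := m) (by omega) (by push_cast; linarith) (by push_cast; linarith)]
    rw [← hcl]
    push_cast
    ring
  have p0 : path (m + 1) q 0 = q 0 := path_zero (by omega) q
  have pn : path (m + 1) q ((m + 1 : ℕ) : ℝ) = q 0 := by rw [path_end (by omega) q, hcl]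
  have hdv : q 1 - q 0 = ‖q 1 - q 0‖ * exp (p 0 * I) := hdir 0 hn
  have hdu : q (m + 1) - q m = ‖q (m + 1) - q m‖ * exp (p m * I) := hdir m (by omega)
  have hv0 : q 1 - q 0 ≠ 0 := hne 0 hn
  have hu0 : q (m + 1) - q m ≠ 0 := hne m (by omega)
  set v : ℂ := q 1 - q 0 with hv
  set u : ℂ := q (m + 1) - q m with hu
  -- left
  have hL : (g (0, 1)).im - (g (0, 0)).im =
      arg (-((1 / 4 : ℝ) : ℂ) * u * exp (-((Real.pi / 2 : ℝ) * I))) -
        arg (((1 / 4 : ℝ) : ℂ) * v * exp (-((Real.pi / 2 : ℝ) * I))) := by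
    have hGL : ∀ b, G (0, b) = path (m + 1) q (w b) - q 0 := by
      intro b
      show path (m + 1) q (cl 0 * _ + w b) - path (m + 1) q (cl 0 * _) = _
      rw [cl0, zero_mul, zero_add, p0]
    have h1 := lift_arg (g := fun b => g (0, b)) (h := fun b => G (0, b)) (a := 0) (b := 1)
      (c := Real.pi / 2) zero_le_one (cg.comp (by fun_prop)).continuousOn
      (cG.comp (by fun_prop)).continuousOn (fun x _ => hg (0, x)) (by
        intro b _
        apply slit_up' (G0 _)
        rw [hGL, sub_im]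
        have := hlow (w b) (by linarith [hw0 b]) (by linarith [hw1 b])
        linarith)
    rw [h1]
    show arg (G (0, 1) * _) - arg (G (0, 0) * _) = _
    rw [hGL, hGL, w0, w1, hpe (1 / 4) (by norm_num) (by norm_num), pstart]
    congr 3
    · push_cast; ring
    · push_cast; ring
  -- right
  have hR : (g (1, 1)).im - (g (1, 0)).im =
      arg (-((1 / 4 : ℝ) : ℂ) * v * exp (-((-(Real.pi / 2) : ℝ) * I))) -
        arg (((1 / 4 : ℝ) : ℂ) * u * exp (-((-(Real.pi / 2) : ℝ) * I))) := by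
    have hGR : ∀ b, G (1, b) = q 0 - path (m + 1) q (((m + 1 : ℕ) : ℝ) - w b) := by
      intro b
      show path (m + 1) q (cl 1 * (((m + 1 : ℕ) : ℝ) - w b) + w b) -
        path (m + 1) q (cl 1 * (((m + 1 : ℕ) : ℝ) - w b)) = _
      rw [cl1, one_mul, sub_add_cancel, pn]
    have h1 := lift_arg (g := fun b => g (1, b)) (h := fun b => G (1, b)) (a := 0) (b := 1)
      (c := -(Real.pi / 2)) zero_le_one (cg.comp (by fun_prop)).continuousOn
      (cG.comp (by fun_prop)).continuousOn (fun x _ => hg (1, x)) (by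
        intro b _
        apply slit_dn' (G0 _)
        rw [hGR, sub_im]
        have := hlow (((m + 1 : ℕ) : ℝ) - w b) (by linarith [hw1 b]) (by linarith [hw0 b])
        linarith)
    rw [h1]
    show arg (G (1, 1) * _) - arg (G (1, 0) * _) = _
    rw [hGR, hGR, w0, w1, hpe (1 / 4) (by norm_num) (by norm_num), sub_sub_cancel, pstart]
    congr 3
    · push_cast; ring
    · push_cast; ring
  -- top
  have hTp : (g (1, 1)).im - (g (0, 1)).im = p 0 - p m := by
    have hGT : ∀ a ∈ Icc (0 : ℝ) 1, G (a, 1) * exp (-((p m + Real.pi : ℝ) * I)) =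
        (((1 / 4 * (1 - a) : ℝ) : ℂ) * u + ((1 / 4 * a : ℝ) : ℂ) * v) * exp (-(p m * I)) := by
      intro a ha
      rw [mem_Icc] at ha
      have h1 : G (a, 1) = -(((1 / 4 * (1 - a) : ℝ) : ℂ) * u + ((1 / 4 * a : ℝ) : ℂ) * v) := by
        show path (m + 1) q (cl a * (((m + 1 : ℕ) : ℝ) - w 1) + w 1) -
          path (m + 1) q (cl a * (((m + 1 : ℕ) : ℝ) - w 1)) = _
        rw [cl_mem ha.1 ha.2, w1]
        have e1 : a * (((m + 1 : ℕ) : ℝ) - (((m + 1 : ℕ) : ℝ) - 1 / 4)) +
            (((m + 1 : ℕ) : ℝ) - 1 / 4) = ((m + 1 : ℕ) : ℝ) - 1 / 4 * (1 - a) := by ring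
        have e2 : a * (((m + 1 : ℕ) : ℝ) - (((m + 1 : ℕ) : ℝ) - 1 / 4)) = 1 / 4 * a := by ring
        rw [e1, e2, hpe _ (by linarith) (by linarith),
          path_eq (i := 0) hn (by push_cast; linarith) (by push_cast; linarith)]
        rw [hv]
        push_cast
        ring
      rw [h1]
      have h2 : exp (-((p m + Real.pi : ℝ) * I)) = - exp (-(p m * I)) := by
        push_cast
        rw [add_mul, neg_add, exp_add, exp_neg (Real.pi * I), exp_pi_mul_I]
        ring
      rw [h2]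
      ring
    have h1 := lift_arg (g := fun a => g (a, 1)) (h := fun a => G (a, 1)) (a := 0) (b := 1)
      (c := p m + Real.pi) zero_le_one (cg.comp (by fun_prop)).continuousOn
      (cG.comp (by fun_prop)).continuousOn (fun x _ => hg (x, 1)) (by
        intro a ha
        show G (a, 1) * _ ∈ slitPlane
        rw [hGT a ha]
        rw [mem_Icc] at ha
        exact comb_ne hdu hdv hu0 hv0 hadj0 (by linarith) (by linarith) (by linarith))
    rw [h1]
    show arg (G (1, 1) * _) - arg (G (0, 1) * _) = _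
    rw [hGT 1 (by norm_num), hGT 0 (by norm_num)]
    have e2 : u * exp (-(p m * I)) = ‖u‖ := by
      conv_lhs => rw [hdu]
      rw [mul_assoc, ← exp_add, add_neg_cancel, exp_zero, mul_one]
    have e3 : v * exp (-(p m * I)) = ‖v‖ * exp (((p 0 - p m : ℝ) : ℂ) * I) := by
      conv_lhs => rw [hdv]
      rw [mul_assoc, ← exp_add]
      push_cast
      ring_nf
    have a1 : arg ((((1 / 4 * (1 - 1) : ℝ) : ℂ) * u + ((1 / 4 * 1 : ℝ) : ℂ) * v) *
        exp (-(p m * I))) = p 0 - p m := by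
      have : (((1 / 4 * (1 - 1) : ℝ) : ℂ) * u + ((1 / 4 * 1 : ℝ) : ℂ) * v) * exp (-(p m * I)) =
          ((1 / 4 * ‖v‖ : ℝ) : ℂ) * exp (((p 0 - p m : ℝ) : ℂ) * I) := by
        have : (((1 / 4 * (1 - 1) : ℝ) : ℂ) * u + ((1 / 4 * 1 : ℝ) : ℂ) * v) * exp (-(p m * I)) =
            (1 / 4 : ℂ) * (v * exp (-(p m * I))) := by push_cast; ring
        rw [this, e3]
        push_cast
        ring
      rw [this]
      exact arg_pos_exp (by positivity) (by rw [abs_sub_comm]; exact hadj0)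
    have a0 : arg ((((1 / 4 * (1 - 0) : ℝ) : ℂ) * u + ((1 / 4 * 0 : ℝ) : ℂ) * v) *
        exp (-(p m * I))) = 0 := by
      have : (((1 / 4 * (1 - 0) : ℝ) : ℂ) * u + ((1 / 4 * 0 : ℝ) : ℂ) * v) * exp (-(p m * I)) =
          ((1 / 4 * ‖u‖ : ℝ) : ℂ) := by
        have : (((1 / 4 * (1 - 0) : ℝ) : ℂ) * u + ((1 / 4 * 0 : ℝ) : ℂ) * v) * exp (-(p m * I)) =
            (1 / 4 : ℂ) * (u * exp (-(p m * I))) := by push_cast; ring
        rw [this, e2]
        push_cast
        ring
      rw [this]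
      exact arg_ofReal_of_nonneg (by positivity)
    rw [a1, a0, sub_zero]
  -- compare
  have e1 : -((1 / 4 : ℝ) : ℂ) * u * exp (-((Real.pi / 2 : ℝ) * I)) =
      ((1 / 4 * ‖u‖ : ℝ) : ℂ) * exp (((p m + Real.pi / 2 : ℝ) : ℂ) * I) := by
    conv_lhs => rw [hdu]
    have : exp (((p m + Real.pi / 2 : ℝ) : ℂ) * I) = exp (p m * I) * I := by
      push_cast
      rw [add_mul, exp_add]
      congr 1
      rw [exp_mul_I, cos_pi_div_two, sin_pi_div_two]
      ring
    rw [exp_half_pi, this]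
    push_cast
    ring
  have e2 : ((1 / 4 : ℝ) : ℂ) * v * exp (-((Real.pi / 2 : ℝ) * I)) =
      ((1 / 4 * ‖v‖ : ℝ) : ℂ) * exp (((p 0 - Real.pi / 2 : ℝ) : ℂ) * I) := by
    conv_lhs => rw [hdv]
    have : exp (((p 0 - Real.pi / 2 : ℝ) : ℂ) * I) = exp (p 0 * I) * (-I) := by
      push_cast
      rw [sub_mul, sub_eq_add_neg, exp_add]
      congr 1
      rw [← neg_mul, exp_mul_I, cos_neg, sin_neg, cos_pi_div_two, sin_pi_div_two]
      ring
    rw [exp_half_pi, this]
    push_cast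
    ring
  have e3 : -((1 / 4 : ℝ) : ℂ) * v * exp (-((-(Real.pi / 2) : ℝ) * I)) =
      ((1 / 4 : ℝ) : ℂ) * v * exp (-((Real.pi / 2 : ℝ) * I)) := by
    rw [exp_half_pi, exp_neg_half_pi]; ring
  have e4 : ((1 / 4 : ℝ) : ℂ) * u * exp (-((-(Real.pi / 2) : ℝ) * I)) =
      -((1 / 4 : ℝ) : ℂ) * u * exp (-((Real.pi / 2 : ℝ) * I)) := by
    rw [exp_half_pi, exp_neg_half_pi]; ring
  rw [e3, e4] at hR
  obtain ⟨k1, hk1⟩ := arg_mod (by positivity) e1
  obtain ⟨k2, hk2⟩ := arg_mod (by positivity) e2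
  have hpi := Real.pi_pos
  have hfin : Real.pi * (1 + 2 * (k1 - k2 : ℝ)) = 0 := by
    have h1 : arg (-((1 / 4 : ℝ) : ℂ) * u * exp (-((Real.pi / 2 : ℝ) * I))) -
        arg (((1 / 4 : ℝ) : ℂ) * v * exp (-((Real.pi / 2 : ℝ) * I))) = p m - p 0 := by linarith
    rw [hk1, hk2] at h1
    linarith
  rcases mul_eq_zero.1 hfin with h | h
  · exact hpi.ne' h
  · have h2 : (1 : ℤ) + 2 * (k1 - k2) = 0 := by exact_mod_cast h
    omega

end Pool.Agent.Helper97.CS
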