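import Pool.Agent.Helper34.Plane.Main
import Mathlib.Topology.Homotopy.Lifting
import Mathlib.Analysis.Complex.CoveringMap

/-!
# MP_fe7296_gt, crossing steps: lifts of angles
-/

set_option autoImplicit false
open Set Filter Topology Complex

namespace Pool.Agent.Helper97.CS

/-- a continuous function with values in `2 π ℤ` on a preconnected set is constant -/
theorem int_const {α : Type*} [TopologicalSpace α] {S : Set α} (hS : IsPreconnected S)
    {D : α → ℝ} (hD : ContinuousOn D S)
    (hint : ∀ x ∈ S, ∃ k : ℤ, D x = k * (2 * Real.pi)) {x y : α} (hx : x ∈ S) (hy : y ∈ S) :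
    D x = D y := by
  have key : ∀ x ∈ S, ∀ y ∈ S, ¬ D x < D y := by
    intro x hx y hy hlt
    obtain ⟨k, hk⟩ := hint x hx
    obtain ⟨j, hj⟩ := hint y hy
    have hpi := Real.pi_pos
    have hkj : k < j := by
      have h1 : (k : ℝ) * (2 * Real.pi) < j * (2 * Real.pi) := by rw [← hk, ← hj]; exact hlt
      have h2 : (k : ℝ) < j := lt_of_mul_lt_mul_right h1 (by positivity)
      exact_mod_cast h2
    have hkj1 : (k : ℝ) + 1 ≤ j := by exact_mod_cast hkj
    have h1 := hS.intermediate_value hx hy hD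
    have hm : (k : ℝ) * (2 * Real.pi) + Real.pi ∈ Icc (D x) (D y) := by
      rw [hk, hj]
      constructor
      · linarith
      · nlinarith
    obtain ⟨w, hw, hwe⟩ := h1 hm
    obtain ⟨m, hm2⟩ := hint w hw
    have h3 : (2 * (m : ℝ)) * Real.pi = (2 * k + 1 : ℝ) * Real.pi := by
      have : D w = (k : ℝ) * (2 * Real.pi) + Real.pi := hwe
      linarith
    have h4 : (2 * (m : ℝ)) = 2 * k + 1 := mul_right_cancel₀ hpi.ne' h3
    have h5 : 2 * m = 2 * k + 1 := by exact_mod_cast h4
    omega
  rcases lt_trichotomy (D x) (D y) with h | h | h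
  · exact absurd h (key x hx y hy)
  · exact h
  · exact absurd h (key y hy x hx)

/-- change of a continuous angle along a path which stays in a slit plane -/
theorem lift_arg {g h : ℝ → ℂ} {a b c : ℝ} (hab : a ≤ b) (hg : ContinuousOn g (Icc a b))
    (hh : ContinuousOn h (Icc a b)) (he : ∀ x ∈ Icc a b, exp (g x) = h x)
    (hs : ∀ x ∈ Icc a b, h x * exp (-(c * I)) ∈ slitPlane) :
    (g b).im - (g a).im = arg (h b * exp (-(c * I))) - arg (h a * exp (-(c * I))) := by
  have cD : ContinuousOn (fun x => (g x).im - c - arg (h x * exp (-(c * I)))) (Icc a b) := by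
    refine ((continuous_im.comp_continuousOn hg).sub continuousOn_const).sub ?_
    intro x hx
    exact ContinuousAt.comp_continuousWithinAt (f := fun x => h x * exp (-(c * I)))
      (continuousAt_arg (hs x hx)) ((hh.mul continuousOn_const) x hx)
  have hint : ∀ x ∈ Icc a b, ∃ k : ℤ,
      (fun x => (g x).im - c - arg (h x * exp (-(c * I)))) x = k * (2 * Real.pi) := by
    intro x hx
    have h0 : h x * exp (-(c * I)) ≠ 0 := slitPlane_ne_zero (hs x hx)
    have h1 : exp (g x - c * I) = exp (log (h x * exp (-(c * I)))) := by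
      rw [exp_log h0, sub_eq_add_neg, exp_add, he x hx]
    rw [exp_eq_exp_iff_exists_int] at h1
    obtain ⟨n, hn⟩ := h1
    refine ⟨n, ?_⟩
    have h2 := congrArg Complex.im hn
    simp only [sub_im, add_im, mul_im, log_im, ofReal_re, ofReal_im, I_re, I_im, mul_re,
      intCast_re, intCast_im, re_ofNat, im_ofNat] at h2
    simp only
    linarith
  have h3 := int_const isPreconnected_Icc cD hint (left_mem_Icc.2 hab) (right_mem_Icc.2 hab)
  linarith

/-- positive combinations of two vectors which are not opposite -/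
theorem slit_comb {a b θ : ℝ} (ha : 0 ≤ a) (hb : 0 ≤ b) (hab : 0 < a + b) (hθ : |θ| < Real.pi) :
    (a : ℂ) + b * exp (θ * I) ∈ slitPlane := by
  obtain ⟨h1, h2⟩ := abs_lt.1 hθ
  rw [mem_slitPlane_iff]
  have hre : ((a : ℂ) + b * exp (θ * I)).re = a + b * Real.cos θ := by
    rw [add_re, ofReal_re, re_ofReal_mul, exp_ofReal_mul_I_re]
  have him : ((a : ℂ) + b * exp (θ * I)).im = b * Real.sin θ := by
    rw [add_im, ofReal_im, im_ofReal_mul, exp_ofReal_mul_I_im, zero_add]
  rw [hre, him]
  rcases lt_trichotomy θ 0 with h | h | h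
  · rcases hb.eq_or_lt with hb0 | hb0
    · left
      rw [← hb0] at hab ⊢
      linarith
    · right
      have : Real.sin θ < 0 := Real.sin_neg_of_neg_of_neg_pi_lt h h1
      exact (mul_neg_of_pos_of_neg hb0 this).ne
  · left
    rw [h, Real.cos_zero]
    linarith
  · rcases hb.eq_or_lt with hb0 | hb0
    · left
      rw [← hb0] at hab ⊢
      linarith
    · right
      have : 0 < Real.sin θ := Real.sin_pos_of_pos_of_lt_pi h h2
      exact (mul_pos hb0 this).ne'

theorem arg_pos_exp {r θ : ℝ} (hr : 0 < r) (hθ : |θ| < Real.pi) :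
    arg ((r : ℂ) * exp (θ * I)) = θ := by
  obtain ⟨h1, h2⟩ := abs_lt.1 hθ
  rw [arg_real_mul _ hr, exp_mul_I]
  exact arg_cos_add_sin_mul_I ⟨h1, h2.le⟩

/-- a nonvanishing continuous function on the plane `ℝ × ℝ` has a continuous logarithm -/
theorem exists_log {G : ℝ × ℝ → ℂ} (hG : Continuous G) (h0 : ∀ x, G x ≠ 0) :
    ∃ g : ℝ × ℝ → ℂ, Continuous g ∧ ∀ x, exp (g x) = G x := by
  have h1 := isCoveringMapOn_exp.existsUnique_continuousMap_lifts (A := ℝ × ℝ)
    (⟨G, hG⟩ : C(ℝ × ℝ, ℂ)) (a₀ := (0, 0)) (e₀ := log (G (0, 0)))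
    (by rw [exp_log (h0 _)]; rfl) (fun a => h0 a)
  obtain ⟨F, ⟨_, hF⟩, _⟩ := h1
  exact ⟨F, F.continuous, fun x => congrFun hF x⟩

end Pool.Agent.Helper97.CS
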