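import Pool.Agent.Helper97.CS.Lift

/-!
# MP_fe7296_gt, crossing steps: the broken line
-/

set_option autoImplicit false
open Set Filter Topology Complex

namespace Pool.Agent.Helper97.CS

/-- clamp to `[0, 1]` -/
noncomputable def cl (x : ℝ) : ℝ := max 0 (min 1 x)

theorem continuous_cl : Continuous cl := by
  unfold cl
  fun_prop

theorem cl_le {x : ℝ} (h : x ≤ 0) : cl x = 0 := by
  unfold cl
  rw [max_eq_left]
  exact (min_le_right _ _).trans h

theorem cl_ge {x : ℝ} (h : 1 ≤ x) : cl x = 1 := by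
  unfold cl
  rw [min_eq_left h, max_eq_right zero_le_one]

theorem cl_mem {x : ℝ} (h0 : 0 ≤ x) (h1 : x ≤ 1) : cl x = x := by
  unfold cl
  rw [min_eq_right h1, max_eq_right h0]

theorem cl_nonneg (x : ℝ) : 0 ≤ cl x := le_max_left _ _

theorem cl_le_one (x : ℝ) : cl x ≤ 1 := max_le zero_le_one (min_le_left _ _)

/-- the broken line with the vertices `q 0, ..., q n`, edge `i` parametrised by `[i, i + 1]` -/
noncomputable def path (n : ℕ) (q : ℕ → ℂ) (s : ℝ) : ℂ :=
  q 0 + ∑ i ∈ Finset.range n, (cl (s - i) : ℂ) * (q (i + 1) - q i)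

theorem continuous_path (n : ℕ) (q : ℕ → ℂ) : Continuous (path n q) := by
  unfold path
  refine continuous_const.add (continuous_finset_sum _ fun i _ => ?_)
  refine (continuous_ofReal.comp ?_).mul continuous_const
  exact continuous_cl.comp (continuous_id.sub continuous_const)

theorem path_eq {n : ℕ} {q : ℕ → ℂ} {i : ℕ} (hi : i < n) {s : ℝ} (h0 : (i : ℝ) ≤ s)
    (h1 : s ≤ i + 1) : path n q s = q i + ((s - i : ℝ) : ℂ) * (q (i + 1) - q i) := by
  unfold path
  have h2 : ∑ j ∈ Finset.range n, (cl (s - j) : ℂ) * (q (j + 1) - q j) =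
      ∑ j ∈ Finset.range (i + 1), (cl (s - j) : ℂ) * (q (j + 1) - q j) := by
    symm
    apply Finset.sum_subset
    · intro j hj
      rw [Finset.mem_range] at hj ⊢
      omega
    · intro j _ hj2
      rw [Finset.mem_range, not_lt] at hj2
      have h3 : (i : ℝ) + 1 ≤ j := by exact_mod_cast hj2
      rw [cl_le (by linarith), ofReal_zero, zero_mul]
  rw [h2, Finset.sum_range_succ, cl_mem (by linarith) (by linarith)]
  have h3 : ∑ j ∈ Finset.range i, (cl (s - j) : ℂ) * (q (j + 1) - q j) = q i - q 0 := by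
    rw [← Finset.sum_range_sub]
    apply Finset.sum_congr rfl
    intro j hj
    rw [Finset.mem_range] at hj
    have h4 : (j : ℝ) + 1 ≤ i := by exact_mod_cast hj
    rw [cl_ge (by linarith), ofReal_one, one_mul]
  rw [h3]
  ring

theorem path_mem {n : ℕ} {q : ℕ → ℂ} {i : ℕ} (hi : i < n) {s : ℝ} (h0 : (i : ℝ) ≤ s)
    (h1 : s ≤ i + 1) : path n q s ∈ segment ℝ (q i) (q (i + 1)) := by
  rw [path_eq hi h0 h1, segment_eq_image']
  refine ⟨s - i, ⟨by linarith, by linarith⟩, ?_⟩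
  simp only [real_smul]

theorem exists_left {n : ℕ} {s : ℝ} (h0 : 0 ≤ s) (h1 : s < n) :
    ∃ i < n, (i : ℝ) ≤ s ∧ s < i + 1 := by
  refine ⟨⌊s⌋₊, ?_, Nat.floor_le h0, Nat.lt_floor_add_one s⟩
  exact (Nat.floor_lt h0).2 h1

theorem exists_right {n : ℕ} {t : ℝ} (h0 : 0 < t) (h1 : t ≤ n) :
    ∃ j < n, (j : ℝ) < t ∧ t ≤ j + 1 := by
  have h2 : 0 < ⌈t⌉₊ := Nat.ceil_pos.2 h0
  obtain ⟨j, hj⟩ := Nat.exists_eq_succ_of_ne_zero h2.ne'
  have h3 : ⌈t⌉₊ ≤ n := Nat.ceil_le.2 h1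
  refine ⟨j, by omega, ?_, ?_⟩
  · exact Nat.lt_ceil.1 (by omega)
  · have h4 := Nat.le_ceil t
    rw [hj] at h4
    push_cast at h4
    exact h4

/-- not opposite vectors have no vanishing combination -/
theorem comb_ne {v w : ℂ} {p r : ℝ} (hv : v = ‖v‖ * exp (p * I)) (hw : w = ‖w‖ * exp (r * I))
    (hv0 : v ≠ 0) (hw0 : w ≠ 0) (hpr : |p - r| < Real.pi) {a b : ℝ} (ha : 0 ≤ a) (hb : 0 ≤ b)
    (hab : 0 < a + b) : ((a : ℂ) * v + b * w) * exp (-(p * I)) ∈ slitPlane := by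
  have h1 : ((a : ℂ) * v + b * w) * exp (-(p * I)) =
      ((a * ‖v‖ : ℝ) : ℂ) + ((b * ‖w‖ : ℝ) : ℂ) * exp (((r - p : ℝ) : ℂ) * I) := by
    have e1 : v * exp (-(p * I)) = ‖v‖ := by
      conv_lhs => rw [hv]
      rw [mul_assoc, ← exp_add, add_neg_cancel, exp_zero, mul_one]
    have e2 : w * exp (-(p * I)) = ‖w‖ * exp (((r - p : ℝ) : ℂ) * I) := by
      conv_lhs => rw [hw]
      rw [mul_assoc, ← exp_add]
      push_cast
      ring_nf
    calc ((a : ℂ) * v + b * w) * exp (-(p * I))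
        = a * (v * exp (-(p * I))) + b * (w * exp (-(p * I))) := by ring
      _ = _ := by rw [e1, e2]; push_cast; ring
  rw [h1]
  have nv : 0 < ‖v‖ := norm_pos_iff.2 hv0
  have nw : 0 < ‖w‖ := norm_pos_iff.2 hw0
  refine slit_comb (by positivity) (by positivity) ?_ (by rw [abs_sub_comm]; exact hpr)
  rcases ha.eq_or_lt with h | h
  · have hb0 : 0 < b := by rw [← h] at hab; linarith
    have := mul_pos hb0 nw
    have h3 := mul_nonneg ha nv.le
    linarith
  · have := mul_pos h nv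
    have h3 := mul_nonneg hb nw.le
    linarith

end Pool.Agent.Helper97.CS
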