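import Pool.Agent.Helper97.CS.Hopf2

/-!
# MP_fe7296_gt, crossing steps: the polygon lemma
-/

set_option autoImplicit false
open Set Filter Topology Complex

namespace Pool.Agent.Helper97.CS

/-- a closed broken line with angles `p i` of the edges such that edges which meet have angles less
than `π` apart -/
structure Bad (n : ℕ) (q : ℕ → ℂ) (p : ℕ → ℝ) : Prop where
  pos : 0 < n
  cl : q n = q 0
  ne : ∀ i < n, q (i + 1) - q i ≠ 0
  dir : ∀ i < n, q (i + 1) - q i = ‖q (i + 1) - q i‖ * exp (p i * I)
  meet : ∀ i < n, ∀ j < n,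
    (segment ℝ (q i) (q (i + 1)) ∩ segment ℝ (q j) (q (j + 1))).Nonempty → |p i - p j| < Real.pi

theorem trim {n : ℕ} (hn : 3 ≤ n) {q : ℕ → ℂ} {p : ℕ → ℝ} (hcl : q n = q 0)
    (hne : ∀ i, 0 < i → i < n - 1 → q (i + 1) - q i ≠ 0)
    (hdir : ∀ i < n, q (i + 1) - q i = ‖q (i + 1) - q i‖ * exp (p i * I))
    (hmeet : ∀ i < n, ∀ j < n,
      (segment ℝ (q i) (q (i + 1)) ∩ segment ℝ (q j) (q (j + 1))).Nonempty →
        |p i - p j| < Real.pi) :
    ∃ m ≤ n, ∃ (q' : ℕ → ℂ) (p' : ℕ → ℝ), Bad m q' p' := by
  obtain ⟨m, rfl⟩ : ∃ m, n = m + 3 := ⟨n - 3, by omega⟩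
  by_cases h0 : q 1 - q 0 = 0
  · by_cases h1 : q (m + 3) - q (m + 2) = 0
    · refine ⟨m + 1, by omega, fun i => q (i + 1), fun i => p (i + 1), by omega, ?_, ?_, ?_, ?_⟩
      · show q (m + 2) = q 1
        rw [← sub_eq_zero.1 h1, hcl, sub_eq_zero.1 h0]
      · intro i hi
        exact hne (i + 1) (by omega) (by omega)
      · intro i hi
        exact hdir (i + 1) (by omega)
      · intro i hi j hj h
        exact hmeet (i + 1) (by omega) (j + 1) (by omega) h
    · refine ⟨m + 2, by omega, fun i => q (i + 1), fun i => p (i + 1), by omega, ?_, ?_, ?_, ?_⟩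
      · show q (m + 3) = q 1
        rw [hcl, sub_eq_zero.1 h0]
      · intro i hi
        rcases Nat.lt_or_ge (i + 1) (m + 2) with h | h
        · exact hne (i + 1) (by omega) (by omega)
        · have : i = m + 1 := by omega
          subst this
          exact h1
      · intro i hi
        exact hdir (i + 1) (by omega)
      · intro i hi j hj h
        exact hmeet (i + 1) (by omega) (j + 1) (by omega) h
  · by_cases h1 : q (m + 3) - q (m + 2) = 0
    · refine ⟨m + 2, by omega, q, p, by omega, ?_, ?_, ?_, ?_⟩
      · rw [← sub_eq_zero.1 h1, hcl]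
      · intro i hi
        rcases Nat.eq_zero_or_pos i with h | h
        · subst h; exact h0
        · exact hne i h (by omega)
      · intro i hi
        exact hdir i (by omega)
      · intro i hi j hj h
        exact hmeet i (by omega) j (by omega) h
    · refine ⟨m + 3, le_rfl, q, p, by omega, hcl, ?_, hdir, hmeet⟩
      intro i hi
      rcases Nat.eq_zero_or_pos i with h | h
      · subst h; exact h0
      · rcases Nat.lt_or_ge i (m + 2) with h2 | h2
        · exact hne i h (by omega)
        · have : i = m + 2 := by omega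
          subst this
          exact h1

theorem dir_smul {v E : ℂ} (hv : v = ‖v‖ * E) {c : ℝ} (hc : 0 ≤ c) :
    (c : ℂ) * v = ‖(c : ℂ) * v‖ * E := by
  rw [norm_mul, norm_real, Real.norm_eq_abs, abs_of_nonneg hc]
  conv_lhs => rw [hv]
  push_cast
  ring

theorem cut {n : ℕ} {q : ℕ → ℂ} {p : ℕ → ℝ} (hB : Bad n q p) {i j : ℕ} (hij : i + 2 ≤ j)
    (hj : j < n) (h0 : ¬ (i = 0 ∧ j + 1 = n)) {x : ℂ} (hx1 : x ∈ segment ℝ (q i) (q (i + 1)))
    (hx2 : x ∈ segment ℝ (q j) (q (j + 1))) :
    ∃ m < n, ∃ (q' : ℕ → ℂ) (p' : ℕ → ℝ), Bad m q' p' := by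
  obtain ⟨d, rfl⟩ : ∃ d, j = i + d := ⟨j - i, by omega⟩
  set Q : ℕ → ℂ := fun k => if k = 0 then x else if k ≤ d then q (i + k) else x with hQ
  have Q0 : Q 0 = x := by simp [hQ]
  have Qk : ∀ k, 0 < k → k ≤ d → Q k = q (i + k) := by
    intro k h1 h2
    simp only [hQ]
    rw [if_neg (by omega), if_pos h2]
  have Ql : Q (d + 1) = x := by
    simp only [hQ]
    rw [if_neg (by omega), if_neg (by omega)]
  have hseg : ∀ k < d + 1, segment ℝ (Q k) (Q (k + 1)) ⊆
      segment ℝ (q (i + k)) (q (i + k + 1)) := by
    intro k hk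
    rcases Nat.eq_zero_or_pos k with h | h
    · subst h
      rw [Q0, Qk 1 (by omega) (by omega)]
      exact (convex_segment _ _).segment_subset hx1 (right_mem_segment ℝ _ _)
    · rcases Nat.lt_or_ge k d with h2 | h2
      · rw [Qk k h (by omega), Qk (k + 1) (by omega) (by omega)]
        exact subset_rfl
      · have : k = d := by omega
        subst this
        rw [Qk k h le_rfl, Ql]
        exact (convex_segment _ _).segment_subset (left_mem_segment ℝ _ _) hx2
  obtain ⟨m, hm, q', p', hB'⟩ := trim (n := d + 1) (q := Q) (p := fun k => p (i + k)) (by omega)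
    (by rw [Ql, Q0]) (by
      intro k hk1 hk2
      rw [Qk k hk1 (by omega), Qk (k + 1) (by omega) (by omega)]
      exact hB.ne (i + k) (by omega)) (by
      intro k hk
      rcases Nat.eq_zero_or_pos k with h | h
      · subst h
        rw [Q0, Qk 1 (by omega) (by omega)]
        rw [segment_eq_image'] at hx1
        obtain ⟨t, ht, rfl⟩ := hx1
        have h1 := dir_smul (hB.dir i (by omega)) (c := 1 - t) (by linarith [ht.2])
        have h2 : q (i + 1) - (fun θ : ℝ => q i + θ • (q (i + 1) - q i)) t =
            ((1 - t : ℝ) : ℂ) * (q (i + 1) - q i) := by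
          simp only [real_smul]
          push_cast
          ring
        rw [h2]
        exact h1
      · rcases Nat.lt_or_ge k d with h2 | h2
        · rw [Qk k h (by omega), Qk (k + 1) (by omega) (by omega)]
          exact hB.dir (i + k) (by omega)
        · have : k = d := by omega
          subst this
          rw [Qk k h le_rfl, Ql]
          rw [segment_eq_image'] at hx2
          obtain ⟨t, ht, rfl⟩ := hx2
          have h1 := dir_smul (hB.dir (i + k) (by omega)) (c := t) ht.1
          have h2 : (fun θ : ℝ => q (i + k) + θ • (q (i + k + 1) - q (i + k))) t - q (i + k) =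
              ((t : ℝ) : ℂ) * (q (i + k + 1) - q (i + k)) := by
            simp only [real_smul]
            ring
          rw [h2]
          exact h1) (by
      intro k hk l hl hne
      obtain ⟨y, hy1, hy2⟩ := hne
      exact hB.meet (i + k) (by omega) (i + l) (by omega) ⟨y, hseg k hk hy1, hseg l hl hy2⟩)
  exact ⟨m, by omega, q', p', hB'⟩

theorem rot {n : ℕ} {q : ℕ → ℂ} {p : ℕ → ℝ} (hB : Bad n q p) (k : ℕ) :
    Bad n (fun i => q ((i + k) % n)) (fun i => p ((i + k) % n)) := by
  have hn := hB.pos
  have key : ∀ i, q ((i + 1 + k) % n) = q ((i + k) % n + 1) := by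
    intro i
    have h1 : (i + 1 + k) % n = ((i + k) % n + 1) % n := by
      rw [show i + 1 + k = (i + k) + 1 by ring, Nat.add_mod, Nat.add_mod ((i + k) % n) 1,
        Nat.mod_mod]
    have h2 : (i + k) % n < n := Nat.mod_lt _ hn
    rcases Nat.lt_or_ge ((i + k) % n + 1) n with h | h
    · rw [h1, Nat.mod_eq_of_lt h]
    · have h3 : (i + k) % n + 1 = n := by omega
      rw [h1, h3, Nat.mod_self, hB.cl]
  refine ⟨hn, ?_, ?_, ?_, ?_⟩
  · show q ((n + k) % n) = q ((0 + k) % n)
    rw [Nat.add_mod_left, zero_add]
  · intro i _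
    show q ((i + 1 + k) % n) - q ((i + k) % n) ≠ 0
    rw [key]
    exact hB.ne _ (Nat.mod_lt _ hn)
  · intro i _
    show q ((i + 1 + k) % n) - q ((i + k) % n) = ‖q ((i + 1 + k) % n) - q ((i + k) % n)‖ * _
    rw [key]
    exact hB.dir _ (Nat.mod_lt _ hn)
  · intro i _ j _ h'
    have h : (segment ℝ (q ((i + k) % n)) (q ((i + 1 + k) % n)) ∩
      segment ℝ (q ((j + k) % n)) (q ((j + 1 + k) % n))).Nonempty := h'
    rw [key, key] at h
    exact hB.meet _ (Nat.mod_lt _ hn) _ (Nat.mod_lt _ hn) h

/-- **Polygon lemma** -/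
theorem not_bad : ∀ (n : ℕ) (q : ℕ → ℂ) (p : ℕ → ℝ), ¬ Bad n q p := by
  intro n
  induction n using Nat.strong_induction_on with
  | _ n ih =>
    intro q0 p0 hB0
    have hn := hB0.pos
    obtain ⟨k, hk, hmin⟩ := Finset.exists_min_image (Finset.range n) (fun i => (q0 i).im)
      ⟨0, Finset.mem_range.2 hn⟩
    rw [Finset.mem_range] at hk
    have hB := rot hB0 k
    set q : ℕ → ℂ := fun i => q0 ((i + k) % n) with hq
    set p : ℕ → ℝ := fun i => p0 ((i + k) % n) with hp
    have hlow1 : ∀ i, (q 0).im ≤ (q i).im := by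
      intro i
      have h1 : q 0 = q0 k := by simp only [hq]; rw [zero_add, Nat.mod_eq_of_lt hk]
      rw [h1]
      exact hmin _ (Finset.mem_range.2 (Nat.mod_lt _ hn))
    have hadj : ∀ i, i + 1 < n → |p i - p (i + 1)| < Real.pi := by
      intro i hi
      exact hB.meet i (by omega) (i + 1) hi
        ⟨q (i + 1), right_mem_segment ℝ _ _, left_mem_segment ℝ _ _⟩
    have hadj0 : |p (n - 1) - p 0| < Real.pi := by
      refine hB.meet (n - 1) (by omega) 0 hn ⟨q 0, ?_, left_mem_segment ℝ _ _⟩
      have h1 : n - 1 + 1 = n := by omega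
      rw [h1, hB.cl]
      exact right_mem_segment ℝ _ _
    refine hopf hn hB.cl hB.ne hB.dir hadj hadj0 ?_ ?_
    · intro s t hs hst ht hne heq
      have hn0 : (0 : ℝ) < n := by exact_mod_cast hn
      obtain ⟨i, hi, hi1, hi2⟩ := exists_left hs (lt_of_lt_of_le hst ht)
      obtain ⟨j, hj, hj1, hj2⟩ := exists_right (lt_of_le_of_lt hs hst) ht
      have hij : i ≤ j := by
        have : (i : ℝ) < j + 1 := by linarith
        have h2 : i < j + 1 := by exact_mod_cast this
        omega
      have es := path_eq (q := q) hi hi1 hi2.le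
      have et := path_eq (q := q) hj hj1.le hj2
      rcases Nat.lt_or_ge (i + 1) j with h | h
      · by_cases h01 : i = 0 ∧ j + 1 = n
        · obtain ⟨rfl, hjn⟩ := h01
          have hjn' : n - 1 = j := by omega
          rw [hjn'] at hadj0
          have hjn2 : (n : ℝ) = j + 1 := by exact_mod_cast hjn.symm
          have h1 := comb_ne (hB.dir j hj) (hB.dir 0 hn) (hB.ne j hj) (hB.ne 0 hn) hadj0
            (a := n - t) (b := s) (by linarith) hs (by
              by_contra hcon
              push Not at hcon
              exact hne ⟨by linarith, by linarith⟩)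
          have h2 := slitPlane_ne_zero h1
          apply h2
          have h3 : ((n - t : ℝ) : ℂ) * (q (j + 1) - q j) + (s : ℂ) * (q (0 + 1) - q 0) = 0 := by
            rw [es, et] at heq
            have h4 : q (j + 1) = q 0 := by rw [hjn, hB.cl]
            rw [h4] at heq ⊢
            rw [hjn2]
            push_cast at heq ⊢
            linear_combination heq
          rw [h3, zero_mul]
        · have hx1 := path_mem (q := q) hi hi1 hi2.le
          have hx2 := path_mem (q := q) hj hj1.le hj2
          rw [← heq] at hx2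
          obtain ⟨m, hm, q', p', hB'⟩ := cut hB (by omega) hj h01 hx1 hx2
          exact ih m hm q' p' hB'
      · rcases Nat.lt_or_ge i j with h2 | h2
        · have hji : j = i + 1 := by omega
          subst hji
          have hcast : ((i + 1 : ℕ) : ℝ) = i + 1 := by push_cast; ring
          have h1 := comb_ne (hB.dir i hi) (hB.dir (i + 1) hj) (hB.ne i hi) (hB.ne (i + 1) hj)
            (hadj i hj) (a := i + 1 - s) (b := t - (i + 1)) (by linarith)
            (by rw [hcast] at hj1; linarith) (by linarith)
          apply slitPlane_ne_zero h1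
          have h3 : ((i + 1 - s : ℝ) : ℂ) * (q (i + 1) - q i) +
              ((t - (i + 1) : ℝ) : ℂ) * (q (i + 1 + 1) - q (i + 1)) = 0 := by
            rw [es, et] at heq
            push_cast at heq ⊢
            linear_combination -heq
          rw [h3, zero_mul]
        · have hji : j = i := by omega
          subst hji
          rw [es, et] at heq
          have h3 : ((t - s : ℝ) : ℂ) * (q (j + 1) - q j) = 0 := by
            push_cast at heq ⊢
            linear_combination -heq
          rcases mul_eq_zero.1 h3 with h4 | h4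
          · have : t - s = 0 := by exact_mod_cast h4
            linarith
          · exact hB.ne j hj h4
    · intro s hs0 hs1
      rcases hs1.lt_or_eq with h | h
      · obtain ⟨i, hi, hi1, hi2⟩ := exists_left hs0 h
        rw [path_eq hi hi1 hi2.le, add_im, im_ofReal_mul, sub_im]
        have h1 := hlow1 i
        have h2 := hlow1 (i + 1)
        have e : (q i).im + (s - i) * ((q (i + 1)).im - (q i).im) =
            (1 - (s - i)) * (q i).im + (s - i) * (q (i + 1)).im := by ring
        rw [e]
        have h3 : 0 ≤ s - i := by linarith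
        have h4 : 0 ≤ 1 - (s - i) := by linarith
        have h5 := mul_le_mul_of_nonneg_left h1 h4
        have h6 := mul_le_mul_of_nonneg_left h2 h3
        linarith
      · rw [h, path_end hn, hB.cl]

end Pool.Agent.Helper97.CS
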