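import Pool.Agent.Helper97.CS.Final
import Mathlib.Analysis.Convex.PartitionOfUnity

/-!
# MP_fe7296_gt: maps whose trail does not separate the plane
-/

set_option autoImplicit false
open Set Filter Topology Complex

namespace Pool.Agent.Helper97.CS

open Pool.Agent.Helper34.Plane

/-- the union of the steps `[z, f z]` -/
def trail (K : Set ℂ) (f : ℂ → ℂ) : Set ℂ := ⋃ z ∈ K, segment ℝ z (f z)

theorem mem_trail {K : Set ℂ} {f : ℂ → ℂ} {y : ℂ} :
    y ∈ trail K f ↔ ∃ z ∈ K, ∃ s ∈ Icc (0 : ℝ) 1, pt f z s = y := by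
  unfold trail
  simp only [mem_iUnion, exists_prop, pt_mem]

theorem continuousOn_pt {K : Set ℂ} {f : ℂ → ℂ} (cf : ContinuousOn f K) :
    ContinuousOn (fun x : ℂ × ℝ => pt f x.1 x.2) (K ×ˢ Icc (0 : ℝ) 1) := by
  have c1 : ContinuousOn (fun x : ℂ × ℝ => x.1) (K ×ˢ Icc (0 : ℝ) 1) := by fun_prop
  have f1 : ContinuousOn (fun x : ℂ × ℝ => f x.1) (K ×ˢ Icc (0 : ℝ) 1) :=
    cf.comp c1 fun x hx => hx.1
  have s1 : ContinuousOn (fun x : ℂ × ℝ => (x.2 : ℂ)) (K ×ˢ Icc (0 : ℝ) 1) := by fun_prop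
  unfold pt
  exact c1.add (s1.mul (f1.sub c1))

theorem isCompact_trail {K : Set ℂ} (hK : IsCompact K) {f : ℂ → ℂ} (cf : ContinuousOn f K) :
    IsCompact (trail K f) := by
  have h1 : trail K f = (fun x : ℂ × ℝ => pt f x.1 x.2) '' (K ×ˢ Icc (0 : ℝ) 1) := by
    ext y
    rw [mem_trail]
    constructor
    · rintro ⟨z, hz, s, hs, rfl⟩
      exact ⟨(z, s), ⟨hz, hs⟩, rfl⟩
    · rintro ⟨⟨z, s⟩, ⟨hz, hs⟩, rfl⟩
      exact ⟨z, hz, s, hs, rfl⟩
  rw [h1]
  exact (hK.prod isCompact_Icc).image_of_continuousOn (continuousOn_pt cf)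

/-- the field of admissible directions is locally constant -/
theorem local_const {K : Set ℂ} (hK : IsCompact K) {f : ℂ → ℂ} (cf : ContinuousOn f K) {y n : ℂ}
    (h : ∀ z ∈ K, y ∈ segment ℝ z (f z) → 0 < ((f z - z) * (starRingEnd ℂ) n).re) :
    ∀ᶠ y' in 𝓝 y, ∀ z ∈ K, y' ∈ segment ℝ z (f z) → 0 < ((f z - z) * (starRingEnd ℂ) n).re := by
  set C : Set (ℂ × ℝ) := K ×ˢ Icc (0 : ℝ) 1 with hC
  have hCc : IsCompact C := hK.prod isCompact_Icc
  have c1 : ContinuousOn (fun x : ℂ × ℝ => x.1) C := by fun_prop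
  have f1 : ContinuousOn (fun x : ℂ × ℝ => f x.1) C := cf.comp c1 fun x hx => hx.1
  have g1 : ContinuousOn (fun x : ℂ × ℝ => ((f x.1 - x.1) * (starRingEnd ℂ) n).re) C :=
    continuous_re.comp_continuousOn ((f1.sub c1).mul continuousOn_const)
  set B : Set (ℂ × ℝ) := C ∩ (fun x : ℂ × ℝ => ((f x.1 - x.1) * (starRingEnd ℂ) n).re) ⁻¹' Iic 0
    with hB
  have hBc : IsCompact B :=
    hCc.of_isClosed_subset (g1.preimage_isClosed_of_isClosed hCc.isClosed isClosed_Iic)
      inter_subset_left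
  have hI : IsCompact ((fun x : ℂ × ℝ => pt f x.1 x.2) '' B) :=
    hBc.image_of_continuousOn ((continuousOn_pt cf).mono inter_subset_left)
  have hy : y ∉ (fun x : ℂ × ℝ => pt f x.1 x.2) '' B := by
    rintro ⟨⟨z, s⟩, ⟨⟨hz, hs⟩, hn⟩, he⟩
    have h1 := h z hz (pt_mem.2 ⟨s, hs, he⟩)
    have h2 : ((f z - z) * (starRingEnd ℂ) n).re ≤ 0 := hn
    linarith
  filter_upwards [hI.isClosed.isOpen_compl.mem_nhds hy] with y' hy' z hz hm
  by_contra hcon
  push Not at hcon
  obtain ⟨s, hs, he⟩ := pt_mem.1 hm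
  exact hy' ⟨(z, s), ⟨⟨hz, hs⟩, hcon⟩, he⟩

/-- a continuous field `U` with `U y · (f z - z) > 0` for all steps `[z, f z]` through `y` -/
theorem exists_field {K : Set ℂ} (hK : IsCompact K) {f : ℂ → ℂ} (cf : ContinuousOn f K)
    (H : ∀ y : ℂ, ∃ n : ℂ, ∀ z ∈ K, y ∈ segment ℝ z (f z) →
      0 < ((f z - z) * (starRingEnd ℂ) n).re) :
    ∃ U : ℂ → ℂ, Continuous U ∧ ∀ y : ℂ, ∀ z ∈ K, y ∈ segment ℝ z (f z) →
      0 < ((f z - z) * (starRingEnd ℂ) (U y)).re := by
  set t : ℂ → Set ℂ := fun y => {n | ∀ z ∈ K, y ∈ segment ℝ z (f z) →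
    0 < ((f z - z) * (starRingEnd ℂ) n).re} with ht
  have hconv : ∀ y, Convex ℝ (t y) := by
    intro y a ha b hb r s hr hs hrs z hz hm
    have h1 := ha z hz hm
    have h2 := hb z hz hm
    have h3 : ((f z - z) * (starRingEnd ℂ) (r • a + s • b)).re =
        r * ((f z - z) * (starRingEnd ℂ) a).re + s * ((f z - z) * (starRingEnd ℂ) b).re := by
      rw [real_smul, real_smul, map_add, map_mul, map_mul, conj_ofReal, conj_ofReal]
      have : (f z - z) * (↑r * (starRingEnd ℂ) a + ↑s * (starRingEnd ℂ) b) =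
          (r : ℂ) * ((f z - z) * (starRingEnd ℂ) a) + (s : ℂ) * ((f z - z) * (starRingEnd ℂ) b) := by
        ring
      rw [this, add_re, re_ofReal_mul, re_ofReal_mul]
    rw [h3]
    rcases hr.eq_or_lt with h | h
    · have hs1 : s = 1 := by linarith
      rw [← h, hs1]
      linarith
    · have := mul_pos h h1
      have := mul_nonneg hs h2.le
      linarith
  obtain ⟨g, hg⟩ := exists_continuous_forall_mem_convex_of_local_const hconv (fun y => by
    obtain ⟨n, hn⟩ := H y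
    exact ⟨n, local_const hK cf hn⟩)
  exact ⟨g, g.continuous, fun y z hz hm => hg y z hz hm⟩

theorem trail_thm {K : Set ℂ} (hK : IsCompact K) (hne : K.Nonempty) {f : ℂ → ℂ}
    (cf : ContinuousOn f K) (hfK : MapsTo f K K) (hS : IsPreconnected (trail K f)ᶜ) :
    ∃ y : ℂ, ∀ n : ℂ, ∃ z ∈ K, y ∈ segment ℝ z (f z) ∧
      ((f z - z) * (starRingEnd ℂ) n).re ≤ 0 := by
  by_contra hcon
  push Not at hcon
  obtain ⟨U, cU, hU⟩ := exists_field hK cf hcon
  have h0 : ∀ z ∈ K, f z ≠ z := by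
    intro z hz h
    have h1 := hU z z hz (left_mem_segment ℝ _ _)
    rw [h, sub_self, zero_mul, zero_re] at h1
    exact lt_irrefl _ h1
  have hSc := isCompact_trail hK cf
  have U0 : ∀ y ∈ trail K f, U y ≠ 0 := by
    intro y hy h
    obtain ⟨z, hz, s, hs, he⟩ := mem_trail.1 hy
    have h1 := hU y z hz (pt_mem.2 ⟨s, hs, he⟩)
    rw [h, map_zero, mul_zero, zero_re] at h1
    exact lt_irrefl _ h1
  obtain ⟨T, cT, eT⟩ := exists_angle hSc hS cU.continuousOn U0
  -- positive real part of the quotient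
  have hq : ∀ z ∈ K, ∀ s ∈ Icc (0 : ℝ) 1, 0 < ((f z - z) / U (pt f z s)).re := by
    intro z hz s hs
    have hy : pt f z s ∈ trail K f := mem_trail.2 ⟨z, hz, s, hs, rfl⟩
    have h1 := hU (pt f z s) z hz (pt_mem.2 ⟨s, hs, rfl⟩)
    have h2 : (f z - z) / U (pt f z s) =
        ((1 / normSq (U (pt f z s)) : ℝ) : ℂ) * ((f z - z) * (starRingEnd ℂ) (U (pt f z s))) := by
      rw [div_eq_mul_inv, inv_def]
      push_cast
      ring
    rw [h2, re_ofReal_mul]
    have : 0 < normSq (U (pt f z s)) := normSq_pos.2 (U0 _ hy)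
    positivity
  have harg : ∀ z ∈ K, ∀ s ∈ Icc (0 : ℝ) 1, |arg ((f z - z) / U (pt f z s))| < Real.pi / 2 :=
    fun z hz s hs => abs_arg_lt_pi_div_two_iff.2 (Or.inl (hq z hz s hs))
  have hslit : ∀ z ∈ K, ∀ s ∈ Icc (0 : ℝ) 1, (f z - z) / U (pt f z s) ∈ slitPlane :=
    fun z hz s hs => mem_slitPlane_iff.2 (Or.inl (hq z hz s hs))
  have edir : ∀ z ∈ K, ∀ s ∈ Icc (0 : ℝ) 1, f z - z = ‖f z - z‖ *
      exp (((T (pt f z s) + arg ((f z - z) / U (pt f z s)) : ℝ) : ℂ) * I) := by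
    intro z hz s hs
    have hy : pt f z s ∈ trail K f := mem_trail.2 ⟨z, hz, s, hs, rfl⟩
    have e1 := eT _ hy
    have e2 := norm_mul_exp_arg_mul_I ((f z - z) / U (pt f z s))
    have n1 : (‖U (pt f z s)‖ : ℂ) ≠ 0 := by exact_mod_cast (norm_pos_iff.2 (U0 _ hy)).ne'
    calc f z - z = U (pt f z s) * ((f z - z) / U (pt f z s)) := by
          rw [mul_div_cancel₀ _ (U0 _ hy)]
      _ = (‖U (pt f z s)‖ * exp (T (pt f z s) * I)) * (‖(f z - z) / U (pt f z s)‖ *
            exp (arg ((f z - z) / U (pt f z s)) * I)) := by rw [← e1, e2]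
      _ = _ := by
          rw [norm_div]
          push_cast
          rw [add_mul, exp_add]
          field_simp
  have cpt : ∀ z, Continuous fun s : ℝ => pt f z s := by
    intro z
    unfold pt
    fun_prop
  -- independence of `s`
  have hconst : ∀ z ∈ K, ∀ s ∈ Icc (0 : ℝ) 1,
      T (pt f z s) + arg ((f z - z) / U (pt f z s)) =
        T (pt f z 0) + arg ((f z - z) / U (pt f z 0)) := by
    intro z hz s hs
    have hmaps : MapsTo (fun s : ℝ => pt f z s) (Icc (0 : ℝ) 1) (trail K f) :=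
      fun s hs => mem_trail.2 ⟨z, hz, s, hs, rfl⟩
    have cq : ContinuousOn (fun s : ℝ => (f z - z) / U (pt f z s)) (Icc (0 : ℝ) 1) :=
      continuousOn_const.div (cU.comp (cpt z)).continuousOn fun s hs => U0 _ (hmaps hs)
    have cD : ContinuousOn (fun s : ℝ => T (pt f z s) + arg ((f z - z) / U (pt f z s)) -
        (T (pt f z 0) + arg ((f z - z) / U (pt f z 0)))) (Icc (0 : ℝ) 1) := by
      refine ((cT.comp (cpt z).continuousOn hmaps).add ?_).sub continuousOn_const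
      intro s hs
      exact ContinuousAt.comp_continuousWithinAt (f := fun s : ℝ => (f z - z) / U (pt f z s))
        (continuousAt_arg (hslit z hz s hs)) (cq s hs)
    have h01 : (0 : ℝ) ∈ Icc (0 : ℝ) 1 := by norm_num
    have hint : ∀ s ∈ Icc (0 : ℝ) 1, ∃ k : ℤ,
        (fun s : ℝ => T (pt f z s) + arg ((f z - z) / U (pt f z s)) -
        (T (pt f z 0) + arg ((f z - z) / U (pt f z 0)))) s = k * (2 * Real.pi) := by
      intro s hs
      have e1 := (edir z hz s hs).symm.trans (edir z hz 0 h01)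
      have n1 : (‖f z - z‖ : ℂ) ≠ 0 := by
        exact_mod_cast (norm_pos_iff.2 (sub_ne_zero.2 (h0 z hz))).ne'
      have e2 := mul_left_cancel₀ n1 e1
      rw [exp_eq_exp_iff_exists_int] at e2
      obtain ⟨k, hk⟩ := e2
      refine ⟨k, ?_⟩
      have h3 := congrArg Complex.im hk
      simp only [add_im, mul_im, ofReal_re, ofReal_im, I_re, I_im, mul_re,
        intCast_re, intCast_im, re_ofNat, im_ofNat] at h3
      simp only
      linarith
    have h1 := int_const isPreconnected_Icc cD hint hs h01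
    simp only [sub_self] at h1
    linarith
  -- the angle on `K`
  have pt0 : ∀ z, pt f z 0 = z := by
    intro z
    simp [pt]
  have hKS : K ⊆ trail K f := fun z hz => mem_trail.2 ⟨z, hz, 0, by norm_num, pt0 z⟩
  have cΘ : ContinuousOn (fun z => T z + arg ((f z - z) / U z)) K := by
    refine (cT.mono hKS).add ?_
    intro z hz
    have h1 := hslit z hz 0 (by norm_num)
    rw [pt0] at h1
    exact ContinuousAt.comp_continuousWithinAt (f := fun z => (f z - z) / U z)
      (continuousAt_arg h1)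
      (((cf.sub continuousOn_id).div cU.continuousOn fun z hz => U0 z (hKS hz)) z hz)
  obtain ⟨z, hz, w, hw, ⟨y, hy1, hy2⟩, hpi⟩ := crossing hK hne cf hfK h0 cΘ (fun z hz => by
    have h1 := edir z hz 0 (by norm_num)
    rw [pt0] at h1
    exact h1)
  obtain ⟨s, hs, hs2⟩ := pt_mem.1 hy1
  obtain ⟨t, ht, ht2⟩ := pt_mem.1 hy2
  have a1 := hconst z hz s hs
  have a2 := hconst w hw t ht
  have b1 := harg z hz s hs
  have b2 := harg w hw t ht
  rw [pt0] at a1 a2
  rw [hs2] at a1 b1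
  rw [ht2] at a2 b2
  have h3 : (T z + arg ((f z - z) / U z)) - (T w + arg ((f w - w) / U w)) =
      arg ((f z - z) / U y) - arg ((f w - w) / U y) := by
    linarith
  have h4 : Real.pi ≤ |arg ((f z - z) / U y) - arg ((f w - w) / U y)| := by
    rw [← h3]
    exact hpi
  have h5 := abs_sub (arg ((f z - z) / U y)) (arg ((f w - w) / U y))
  linarith

end Pool.Agent.Helper97.CS
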